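import Mathlib
import Pool.Agent.Helper66.HC.Def
import Pool.Agent.Helper14.UE.Final

/-! MP_887f13: Hamilton circles in four-connected line graphs of locally finite graphs with
arbitrarily many ends, when almost all edges lie in small three-edge-connected pieces. -/

namespace Pool.Agent.Results.MP_887f13_co.AnyNumberOfEnds

open Pool.H66.HC

universe u

/-- `H` is `k`-connected: it has more than `k` vertices, and `H - S` is connected for every set `S` of
fewer than `k` vertices. -/
def KConn {W : Type u} (k : ℕ) (H : SimpleGraph W) : Prop :=
  (k : ℕ∞) < (Set.univ : Set W).encard ∧ ∀ S : Set W, S.encard < k → (H.induce Sᶜ).Connected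

/-- Let `G` be an infinite, connected, locally finite graph, with any number of ends. Suppose that
the line graph of `G` is four-connected, that every vertex of degree three of `G` lies on a
triangle of `G`, and that for every finite set `K` of vertices all but finitely many edges of `G`
lie in a finite three-edge-connected induced subgraph of `G` which avoids `K`. Then the end
compactification of the line graph of `G` contains a Hamilton circle. -/
theorem result {V : Type u} [Infinite V] (G : SimpleGraph V) (hG : G.Connected)
    (hlf : ∀ v, (G.neighborSet v).Finite) (hL : KConn 4 G.lineGraph)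
    (h3 : ∀ v, (G.neighborSet v).ncard = 3 → ∃ a b, G.Adj v a ∧ G.Adj v b ∧ G.Adj a b)
    (hB : ∀ K : Finset V, {e | e ∈ G.edgeSet ∧ ¬ ∃ W : Finset V, Disjoint W K ∧
      (∀ v ∈ e, v ∈ W) ∧ (G.induce (W : Set V)).IsEdgeConnected 3}.Finite) :
    HasHamiltonCircle G.lineGraph :=
  Pool.H14.UE.main hG hlf hL h3 (Pool.H14.UE.hb_of hlf hB)

end Pool.Agent.Results.MP_887f13_co.AnyNumberOfEnds
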