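import Mathlib
import Pool.Agent.Helper66.TG.Deg

/-! MP_887f13: Hamilton circles in four-connected line graphs of locally finite graphs with
countably many ends in which every vertex of degree three is on a triangle. -/

namespace Pool.Agent.Results.MP_887f13_co.DegreeThreeTriangles

open Pool.H66.HC

universe u

/-- `H` has more than `k` vertices, and `H - S` is connected for every set `S` of fewer than `k`
vertices -/
def KConn {W : Type u} (k : ℕ) (H : SimpleGraph W) : Prop :=
  (k : ℕ∞) < (Set.univ : Set W).encard ∧ ∀ S : Set W, S.encard < k → (H.induce Sᶜ).Connected

/-- Let `G` be an infinite, connected, locally finite graph with countably many ends. If the line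
graph of `G` is four-connected and every vertex of degree three of `G` lies on a triangle of `G`,
then the end compactification of the line graph of `G` contains a Hamilton circle. -/
theorem result {V : Type u} [Infinite V] (G : SimpleGraph V) (hG : G.Connected)
    (hlf : ∀ v, (G.neighborSet v).Finite) (hL : KConn 4 G.lineGraph)
    (h3 : ∀ v, (G.neighborSet v).ncard = 3 → ∃ a b, G.Adj v a ∧ G.Adj v b ∧ G.Adj a b)
    (hends : Countable G.end) : HasHamiltonCircle G.lineGraph :=
  Pool.H66.TG.main hG hlf hL h3 hends

end Pool.Agent.Results.MP_887f13_co.DegreeThreeTriangles
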